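import Pool.Agent.STR.Stmts

/-!
# Squad STR, module NUM: the numbers
-/

set_option autoImplicit false

namespace Pool.Agent.STR.H66

open Pool.Agent.STR

/-- A lower bound for binomial coefficients. -/
lemma pow_le_choose' (b r : ℕ) (A : ℝ) (hA : 0 ≤ A) (h : A * r ≤ (b + 1 - r : ℕ)) :
    A ^ r ≤ (b.choose r : ℝ) := by
  rcases Nat.eq_zero_or_pos r with hr | hr
  · subst hr
    simp
  have h1 : ((b + 1 - r : ℕ) ^ r : ℝ) / (r.factorial : ℝ) ≤ b.choose r :=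
    Nat.pow_le_choose r b
  have h2 : (r.factorial : ℝ) ≤ (r : ℝ) ^ r := by exact_mod_cast Nat.factorial_le_pow r
  have h3 : (0 : ℝ) < r.factorial := by exact_mod_cast Nat.factorial_pos r
  have hr' : (0 : ℝ) < r := by exact_mod_cast hr
  refine le_trans ?_ h1
  rw [le_div_iff₀ h3]
  calc A ^ r * (r.factorial : ℝ) ≤ A ^ r * (r : ℝ) ^ r :=
        mul_le_mul_of_nonneg_left h2 (pow_nonneg hA _)
    _ = (A * r) ^ r := (mul_pow _ _ _).symm
    _ ≤ ((b + 1 - r : ℕ) : ℝ) ^ r := pow_le_pow_left₀ (by positivity) h _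

/-- The estimate of the square root with the binomial coefficient. -/
lemma term (ε c θ s A : ℝ) (b r : ℕ) (hε : 0 < ε) (hc : 0 ≤ c) (hθ : 0 < θ) (hs : 1 ≤ s)
    (hA : A = Real.exp (2 * (c + 1) / θ)) (hr : θ * s / 2 ≤ r)
    (h : A * r ≤ (b + 1 - r : ℕ)) (h8 : 128 / ε ^ 2 ≤ s) :
    Real.sqrt (Real.exp (c * s) / (b.choose r : ℝ) + 1 / s ^ 2) ≤ ε / 8 := by
  have hs0 : 0 < s := by linarith
  have hA0 : 0 < A := by rw [hA]; exact Real.exp_pos _
  have h1 := pow_le_choose' b r A hA0.le h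
  have h2 : Real.exp ((c + 1) * s) ≤ A ^ r := by
    rw [hA, ← Real.exp_nat_mul]
    apply Real.exp_le_exp.2
    have e1 : (r : ℝ) * (2 * (c + 1) / θ) = (2 * (c + 1) / θ) * r := mul_comm _ _
    rw [e1]
    have h3 : (2 * (c + 1) / θ) * (θ * s / 2) ≤ (2 * (c + 1) / θ) * r :=
      mul_le_mul_of_nonneg_left hr (by positivity)
    have e2 : (2 * (c + 1) / θ) * (θ * s / 2) = (c + 1) * s := by field_simp
    linarith
  have h3 : Real.exp (c * s) / (b.choose r : ℝ) ≤ 1 / s := by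
    have h4 : Real.exp ((c + 1) * s) ≤ (b.choose r : ℝ) := le_trans h2 h1
    have h5 : (0 : ℝ) < b.choose r := lt_of_lt_of_le (Real.exp_pos _) h4
    rw [div_le_div_iff₀ h5 hs0]
    have h6 : Real.exp ((c + 1) * s) = Real.exp (c * s) * Real.exp s := by
      rw [← Real.exp_add]; congr 1; ring
    have h7 : s ≤ Real.exp s := by linarith [Real.add_one_le_exp s]
    calc Real.exp (c * s) * s ≤ Real.exp (c * s) * Real.exp s :=
          mul_le_mul_of_nonneg_left h7 (Real.exp_pos _).le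
      _ ≤ 1 * (b.choose r : ℝ) := by rw [← h6, one_mul]; exact h4
  have h4 : 1 / s ^ 2 ≤ 1 / s := by
    apply one_div_le_one_div_of_le hs0
    nlinarith
  have h5 : 2 / s ≤ (ε / 8) ^ 2 := by
    rw [div_le_iff₀ hs0]
    have h6 : 128 / ε ^ 2 * (ε / 8) ^ 2 = 2 := by field_simp; norm_num
    have h7 : 128 / ε ^ 2 * (ε / 8) ^ 2 ≤ s * (ε / 8) ^ 2 :=
      mul_le_mul_of_nonneg_right h8 (sq_nonneg _)
    linarith
  apply Real.sqrt_le_iff.2
  refine ⟨by positivity, ?_⟩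
  have h6 : 1 / s + 1 / s = 2 / s := by ring
  linarith

theorem num : NumStmt := by
  intro ε hε
  obtain ⟨e, he⟩ : ∃ e, e = min 1 (ε / 16) := ⟨_, rfl⟩
  obtain ⟨d, hd⟩ : ∃ d, d = min (1 / 2) ((ε / 16) ^ 2) := ⟨_, rfl⟩
  have he0 : 0 < e := by rw [he]; exact lt_min one_pos (by positivity)
  have he1 : e ≤ 1 := by rw [he]; exact min_le_left _ _
  have he2 : e ≤ ε / 16 := by rw [he]; exact min_le_right _ _
  have hd0 : 0 < d := by rw [hd]; exact lt_min (by norm_num) (by positivity)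
  have hd1 : d ≤ 1 / 2 := by rw [hd]; exact min_le_left _ _
  have hd2 : d ≤ (ε / 16) ^ 2 := by rw [hd]; exact min_le_right _ _
  obtain ⟨D, hD⟩ : ∃ D, D = 12 / d / e := ⟨_, rfl⟩
  have hD0 : 0 < D := by rw [hD]; positivity
  obtain ⟨E0, hE0⟩ : ∃ E0, E0 = Real.exp (12 / d / e + (12 / d) ^ 2 / e ^ 2) := ⟨_, rfl⟩
  obtain ⟨c, hc⟩ : ∃ c, c = 3 * (12 / d) / e := ⟨_, rfl⟩
  have hc0 : 0 < c := by rw [hc]; positivity
  obtain ⟨η, hη⟩ : ∃ η, η = min (1 / 2) (min (ε ^ 2 / 512) (ε / (16 * D))) := ⟨_, rfl⟩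
  have hη0 : 0 < η := by
    rw [hη]; exact lt_min (by norm_num) (lt_min (by positivity) (by positivity))
  have hη1 : η ≤ 1 / 2 := by rw [hη]; exact min_le_left _ _
  have hη2 : η ≤ ε ^ 2 / 512 := by
    rw [hη]; exact le_trans (min_le_right _ _) (min_le_left _ _)
  have hη3 : η ≤ ε / (16 * D) := by
    rw [hη]; exact le_trans (min_le_right _ _) (min_le_right _ _)
  obtain ⟨θ, hθ⟩ : ∃ θ, θ = ε / 32 := ⟨_, rfl⟩
  have hθ0 : 0 < θ := by rw [hθ]; positivity
  obtain ⟨A, hA⟩ : ∃ A, A = Real.exp (2 * (c + 1) / θ) := ⟨_, rfl⟩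
  have hA1 : 1 ≤ A := by rw [hA]; exact Real.one_le_exp (by positivity)
  obtain ⟨S, hS⟩ : ∃ S : ℝ, S = 1 + (A + 1) * θ / η + 2 / θ + 16 * (E0 + 3) / ε + 128 / ε ^ 2 +
    1 / η := ⟨_, rfl⟩
  have hE1 : 0 < E0 := by rw [hE0]; exact Real.exp_pos _
  have p1 : 0 < (A + 1) * θ / η := by positivity
  have p2 : 0 < 2 / θ := by positivity
  have p3 : 0 < 16 * (E0 + 3) / ε := by positivity
  have p4 : 0 < 128 / ε ^ 2 := by positivity
  have p5 : 0 < 1 / η := by positivity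
  refine ⟨e, 1 - d, ⌈S ^ 2⌉₊ + 1, fun n => ⌊η * n⌋₊, fun n => ⌊θ * Real.sqrt n⌋₊, he0, he1,
    by linarith, by linarith, ?_⟩
  intro n hn
  have hdd : 1 - (1 - d) = d := by ring
  rw [hdd]
  simp only []
  -- the square root
  obtain ⟨s, hs⟩ : ∃ s, s = Real.sqrt n := ⟨_, rfl⟩
  have hnS : S ^ 2 ≤ n := by
    have h1 : S ^ 2 ≤ (⌈S ^ 2⌉₊ : ℝ) := Nat.le_ceil _
    have h2 : ((⌈S ^ 2⌉₊ + 1 : ℕ) : ℝ) ≤ n := by exact_mod_cast hn
    push_cast at h2
    linarith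
  have hS1 : 1 ≤ S := by rw [hS]; linarith
  have hsS : S ≤ s := by
    rw [hs]
    exact Real.le_sqrt_of_sq_le hnS
  have hs1 : 1 ≤ s := le_trans hS1 hsS
  have hs0 : 0 < s := by linarith
  have hn0 : (0 : ℝ) ≤ n := Nat.cast_nonneg n
  have hss : s ^ 2 = n := by rw [hs]; exact Real.sq_sqrt hn0
  have hn1 : (1 : ℝ) ≤ n := by rw [← hss]; nlinarith
  have q1 : (A + 1) * θ / η ≤ s := by rw [hS] at hsS; linarith
  have q2 : 2 / θ ≤ s := by rw [hS] at hsS; linarith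
  have q3 : 16 * (E0 + 3) / ε ≤ s := by rw [hS] at hsS; linarith
  have q4 : 128 / ε ^ 2 ≤ s := by rw [hS] at hsS; linarith
  have q5 : 1 / η ≤ s := by rw [hS] at hsS; linarith
  rw [← hs]
  obtain ⟨b, hb⟩ : ∃ b, b = ⌊η * n⌋₊ := ⟨_, rfl⟩
  obtain ⟨r, hr⟩ : ∃ r, r = ⌊θ * s⌋₊ := ⟨_, rfl⟩
  rw [← hb, ← hr]
  have hb1 : (b : ℝ) ≤ η * n := by rw [hb]; exact Nat.floor_le (by positivity)
  have hb2 : η * n < b + 1 := by rw [hb]; exact Nat.lt_floor_add_one _
  have hr1 : (r : ℝ) ≤ θ * s := by rw [hr]; exact Nat.floor_le (by positivity)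
  have hr2 : θ * s < r + 1 := by rw [hr]; exact Nat.lt_floor_add_one _
  have hηn : 1 ≤ η * n := by
    rw [← hss]
    rw [div_le_iff₀ hη0] at q5
    have : s * η ≤ s * (s * η) := by
      have h0 : 0 ≤ s * η := by positivity
      nlinarith
    nlinarith
  have hb3 : 1 ≤ b := by
    rw [hb]
    exact Nat.le_floor (by exact_mod_cast hηn)
  have hθs : 2 ≤ θ * s := by
    rw [div_le_iff₀ hθ0] at q2
    linarith
  have hr3 : θ * s / 2 ≤ r := by linarith
  have hr4 : (1 : ℝ) ≤ r := by linarith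
  have hAr : (A + 1) * r < b + 1 := by
    rw [div_le_iff₀ hη0] at q1
    have h1 : (A + 1) * r ≤ (A + 1) * (θ * s) :=
      mul_le_mul_of_nonneg_left hr1 (by linarith)
    have h2 : (A + 1) * θ * s ≤ s * η * s := mul_le_mul_of_nonneg_right q1 hs0.le
    have h3 : s * η * s = η * n := by rw [← hss]; ring
    nlinarith
  have hrb : r ≤ b := by
    have h1 : (2 : ℝ) * r ≤ (A + 1) * r := mul_le_mul_of_nonneg_right (by linarith) (by linarith)
    have h2 : (2 : ℝ) * r < b + 1 := lt_of_le_of_lt h1 hAr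
    have h3 : 2 * r < b + 1 := by exact_mod_cast h2
    have h4 : 1 ≤ r := by exact_mod_cast hr4
    omega
  have hbn : b < n := by
    have h1 : (b : ℝ) < n := by
      have : η * n ≤ 1 / 2 * n := mul_le_mul_of_nonneg_right hη1 hn0
      linarith
    exact_mod_cast h1
  refine ⟨hb3, hbn, hrb, ?_⟩
  -- the estimates of the terms
  have t1 : Real.sqrt (n + 1) ≤ 2 * s := by
    rw [Real.sqrt_le_left (by positivity)]
    rw [mul_pow, hss]
    linarith
  have t2 : Real.sqrt (b + 1) ≤ ε / 16 * s := by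
    rw [Real.sqrt_le_left (by positivity)]
    rw [mul_pow, hss]
    have h1 : η * n ≤ ε ^ 2 / 512 * n := mul_le_mul_of_nonneg_right hη2 hn0
    have h2 : (ε / 16) ^ 2 * n = 2 * (ε ^ 2 / 512 * n) := by ring
    linarith
  have t3 : Real.sqrt (d * n) ≤ ε / 16 * s := by
    rw [Real.sqrt_le_left (by positivity)]
    rw [mul_pow, hss]
    exact mul_le_mul_of_nonneg_right hd2 hn0
  have hsub : ((b + 1 - r : ℕ) : ℝ) = b + 1 - r := by
    rw [Nat.cast_sub (by omega)]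
    push_cast
    ring
  have t4 := term ε c θ s A b r hε hc0.le hθ0 hs1 hA hr3 (by rw [hsub]; nlinarith) q4
  rw [hss] at t4
  have t5 : (b : ℝ) * (2 * (12 / d / e * s)) ≤ n * (ε / 8 * s) := by
    rw [← hD]
    have h1 : (b : ℝ) * (2 * (D * s)) ≤ (ε / (16 * D) * n) * (2 * (D * s)) := by
      apply mul_le_mul_of_nonneg_right _ (by positivity)
      exact le_trans hb1 (mul_le_mul_of_nonneg_right hη3 hn0)
    have h2 : (ε / (16 * D) * n) * (2 * (D * s)) = n * (ε / 8 * s) := by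
      field_simp
      ring
    linarith
  have t6 : E0 + 3 ≤ ε / 16 * s := by
    rw [div_le_iff₀ hε] at q3
    linarith
  have t7 : e * Real.sqrt (n + 1) ≤ ε / 8 * s := by
    calc e * Real.sqrt (n + 1) ≤ ε / 16 * (2 * s) :=
          mul_le_mul he2 t1 (Real.sqrt_nonneg _) (by positivity)
      _ = ε / 8 * s := by ring
  have t8 : Real.sqrt (Real.exp (3 * (12 / d) / e * s) / (b.choose r : ℝ) + 1 / n) * s ≤
      ε / 8 * s := by
    rw [← hc]
    exact mul_le_mul_of_nonneg_right t4 hs0.le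
  have t9 : (2 : ℝ) * r ≤ ε / 16 * s := by
    have : θ * s = ε / 32 * s := by rw [hθ]
    linarith
  rw [← hE0]
  have key : E0 + 1 + 2 * (1 + (r : ℝ)) + e * Real.sqrt (n + 1) + 2 * Real.sqrt (b + 1) +
      2 * Real.sqrt (d * n) +
      Real.sqrt (Real.exp (3 * (12 / d) / e * s) / (b.choose r : ℝ) + 1 / n) * s ≤
      3 / 4 * ε * s := by
    linarith
  calc (n : ℝ) * (E0 + 1 + 2 * (1 + (r : ℝ)) + e * Real.sqrt (n + 1) + 2 * Real.sqrt (b + 1) +
      2 * Real.sqrt (d * n) +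
      Real.sqrt (Real.exp (3 * (12 / d) / e * s) / (b.choose r : ℝ) + 1 / n) * s) +
        b * (2 * (12 / d / e * s)) ≤ n * (3 / 4 * ε * s) + n * (ε / 8 * s) :=
        add_le_add (mul_le_mul_of_nonneg_left key hn0) t5
    _ ≤ n * (ε * s) := by
      rw [← mul_add]
      apply mul_le_mul_of_nonneg_left _ hn0
      have : 0 < ε * s := by positivity
      linarith

end Pool.Agent.STR.H66
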